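import Pool.Agent.Helper64.HG.Stmts

set_option autoImplicit false

namespace Pool.Agent.Helper64.HG

theorem st_GLUE0 : ST_GLUE0 := by
  classical
  intro V _ G A hA hC1 hC2
  obtain ⟨l1, r1, h1⟩ := hC1
  obtain ⟨l2, r2, h2⟩ := hC2
  obtain ⟨M, hM⟩ := (Set.finite_range r1).bddAbove
  obtain ⟨m, hm⟩ := (Set.finite_range l2).bddBelow
  have hM' : ∀ x, r1 x ≤ M := fun x => hM ⟨x, rfl⟩
  have hm' : ∀ x, m ≤ l2 x := fun x => hm ⟨x, rfl⟩
  obtain ⟨c, hc⟩ : ∃ c, c = M - m + 1 := ⟨_, rfl⟩
  obtain ⟨l, hl⟩ : ∃ l : V → ℝ, l = fun v => if h : v ∈ A then l1 ⟨v, h⟩ else l2 ⟨v, h⟩ + c :=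
    ⟨_, rfl⟩
  obtain ⟨r, hr⟩ : ∃ r : V → ℝ, r = fun v => if h : v ∈ A then r1 ⟨v, h⟩ else r2 ⟨v, h⟩ + c :=
    ⟨_, rfl⟩
  have lA : ∀ v (h : v ∈ A), l v = l1 ⟨v, h⟩ := fun v h => by
    rw [hl]; simp only [dif_pos h]
  have rA : ∀ v (h : v ∈ A), r v = r1 ⟨v, h⟩ := fun v h => by
    rw [hr]; simp only [dif_pos h]
  have lB : ∀ v (h : v ∉ A), l v = l2 ⟨v, h⟩ + c := fun v h => by
    rw [hl]; simp only [dif_neg h]
  have rB : ∀ v (h : v ∉ A), r v = r2 ⟨v, h⟩ + c := fun v h => by
    rw [hr]; simp only [dif_neg h]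
  have hlt : ∀ v, l v < r v := by
    intro v
    by_cases h : v ∈ A
    · rw [lA v h, rA v h]; exact h1.lt _
    · rw [lB v h, rB v h]
      have := h2.lt ⟨v, h⟩
      linarith
  have up : ∀ v, v ∈ A → r v ≤ M := fun v h => by rw [rA v h]; exact hM' _
  have lo : ∀ v, v ∉ A → M < l v := fun v h => by
    rw [lB v h, hc]
    have := hm' ⟨v, h⟩
    linarith
  refine ⟨l, r, hlt, ?_, ?_, ?_, ?_⟩
  · intro u v huv
    by_cases hu : u ∈ A <;> by_cases hv : v ∈ A
    · rw [lA u hu, lA v hv] at huv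
      exact congrArg Subtype.val (h1.injl huv)
    · have := up u hu
      have := lo v hv
      have := hlt u
      linarith
    · have := up v hv
      have := lo u hu
      have := hlt v
      linarith
    · rw [lB u hu, lB v hv] at huv
      exact congrArg Subtype.val (h2.injl (add_right_cancel huv))
  · intro u v huv
    by_cases hu : u ∈ A <;> by_cases hv : v ∈ A
    · rw [rA u hu, rA v hv] at huv
      exact congrArg Subtype.val (h1.injr huv)
    · have := up u hu
      have := lo v hv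
      have := hlt v
      linarith
    · have := up v hv
      have := lo u hu
      have := hlt u
      linarith
    · rw [rB u hu, rB v hv] at huv
      exact congrArg Subtype.val (h2.injr (add_right_cancel huv))
  · intro u v huv
    by_cases hu : u ∈ A <;> by_cases hv : v ∈ A
    · rw [lA u hu, rA v hv] at huv
      exact h1.ne _ _ huv
    · have := up u hu
      have := lo v hv
      have := hlt u
      have := hlt v
      linarith
    · have := up v hv
      have := lo u hu
      linarith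
    · rw [lB u hu, rB v hv] at huv
      exact h2.ne _ _ (add_right_cancel huv)
  · intro u v
    by_cases hu : u ∈ A <;> by_cases hv : v ∈ A
    · have h3 := h1.adj ⟨u, hu⟩ ⟨v, hv⟩
      have h4 : (G.induce A).Adj ⟨u, hu⟩ ⟨v, hv⟩ ↔ G.Adj u v := Iff.rfl
      rw [← h4, h3]
      unfold Ovl
      rw [lA u hu, lA v hv, rA u hu, rA v hv]
    · have a1 := up u hu
      have a2 := lo v hv
      have a3 := hlt u
      have a4 := hlt v
      constructor
      · intro h
        exact absurd h (hA u hu v hv)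
      · intro h
        unfold Ovl at h
        rcases h with ⟨_, h, _⟩ | ⟨h, _, _⟩ <;> linarith
    · have a1 := up v hv
      have a2 := lo u hu
      have a3 := hlt u
      have a4 := hlt v
      constructor
      · intro h
        exact absurd h.symm (hA v hv u hu)
      · intro h
        unfold Ovl at h
        rcases h with ⟨h, _, _⟩ | ⟨_, h, _⟩ <;> linarith
    · have h3 := h2.adj ⟨u, hu⟩ ⟨v, hv⟩
      have h4 : (G.induce Aᶜ).Adj ⟨u, hu⟩ ⟨v, hv⟩ ↔ G.Adj u v := Iff.rfl
      rw [← h4, h3]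
      unfold Ovl
      rw [lB u hu, lB v hv, rB u hu, rB v hv]
      simp only [add_lt_add_iff_right]

end Pool.Agent.Helper64.HG
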